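import Pool.Agent.Helper95.HV.Stmts
import Pool.Agent.Helper14.PW.POE
import Pool.Agent.Helper49.PN.ATTL

/-!
# Row DBS: the double commutator identity for fields that vanish near the nuclei
-/

set_option autoImplicit false

namespace Pool.Agent.Helper67.HV

open MeasureTheory Filter Topology Pool.Agent.Helper95.PW Pool.Agent.Helper95.LN
open Pool.Agent.Helper95.CF Pool.Agent.Helper95.HV Pool.Agent.Helper14.PW

theorem dbs_pdc {f : R3 → ℝ} (hc : HasCompactSupport f) (i : Fin 3) :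
    HasCompactSupport (pd i f) := by
  unfold pd
  exact hc.fderiv_apply (𝕜 := ℝ) _

theorem dbs_bd {f : R3 → ℝ} (hf : ContDiff ℝ (⊤ : ℕ∞) f) (hc : HasCompactSupport f) :
    ∃ C : ℝ, 0 ≤ C ∧ ∀ y, |f y| ≤ C := by
  obtain ⟨C, hC⟩ := hf.continuous.bounded_above_of_compact_support hc
  exact ⟨C, (norm_nonneg _).trans (hC 0), hC⟩

theorem dbs_sc {g : R3 → ℝ} (hg : ContDiff ℝ (⊤ : ℕ∞) g) (hc : HasCompactSupport g) {ρ : ℝ}
    (hρ : 0 < ρ) : ∃ K : ℝ, 0 ≤ K ∧ Scale g K ρ := by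
  have s1 := fun i => poe_pd_cd hg i
  have s2 := fun i j => poe_pd_cd (s1 i) j
  have s3 := fun i j l => poe_pd_cd (s2 i j) l
  have s4 := fun i j l m => poe_pd_cd (s3 i j l) m
  have c1 := fun i => dbs_pdc hc i
  have c2 := fun i j => dbs_pdc (c1 i) j
  have c3 := fun i j l => dbs_pdc (c2 i j) l
  have c4 := fun i j l m => dbs_pdc (c3 i j l) m
  choose C1 p1 h1 using fun i => dbs_bd (s1 i) (c1 i)
  choose C2 p2 h2 using fun i j => dbs_bd (s2 i j) (c2 i j)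
  choose C3 p3 h3 using fun i j l => dbs_bd (s3 i j l) (c3 i j l)
  choose C4 p4 h4 using fun i j l m => dbs_bd (s4 i j l m) (c4 i j l m)
  have q1 : 0 ≤ ∑ i, C1 i := Finset.sum_nonneg fun i _ => p1 i
  have q2 : 0 ≤ ∑ i, ∑ j, C2 i j :=
    Finset.sum_nonneg fun i _ => Finset.sum_nonneg fun j _ => p2 i j
  have q3 : 0 ≤ ∑ i, ∑ j, ∑ l, C3 i j l :=
    Finset.sum_nonneg fun i _ => Finset.sum_nonneg fun j _ => Finset.sum_nonneg fun l _ => p3 i j l
  have q4 : 0 ≤ ∑ i, ∑ j, ∑ l, ∑ m, C4 i j l m :=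
    Finset.sum_nonneg fun i _ => Finset.sum_nonneg fun j _ => Finset.sum_nonneg fun l _ =>
      Finset.sum_nonneg fun m _ => p4 i j l m
  have r1 : ∀ i, C1 i ≤ ∑ i, C1 i := fun i =>
    Finset.single_le_sum (f := C1) (fun i _ => p1 i) (Finset.mem_univ i)
  have r2 : ∀ i j, C2 i j ≤ ∑ i, ∑ j, C2 i j := fun i j =>
    (Finset.single_le_sum (f := C2 i) (fun j _ => p2 i j) (Finset.mem_univ j)).trans
      (Finset.single_le_sum (f := fun i => ∑ j, C2 i j)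
        (fun i _ => Finset.sum_nonneg fun j _ => p2 i j) (Finset.mem_univ i))
  have r3 : ∀ i j l, C3 i j l ≤ ∑ i, ∑ j, ∑ l, C3 i j l := fun i j l =>
    ((Finset.single_le_sum (f := C3 i j) (fun l _ => p3 i j l) (Finset.mem_univ l)).trans
      (Finset.single_le_sum (f := fun j => ∑ l, C3 i j l)
        (fun j _ => Finset.sum_nonneg fun l _ => p3 i j l) (Finset.mem_univ j))).trans
      (Finset.single_le_sum (f := fun i => ∑ j, ∑ l, C3 i j l)
        (fun i _ => Finset.sum_nonneg fun j _ => Finset.sum_nonneg fun l _ => p3 i j l)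
        (Finset.mem_univ i))
  have r4 : ∀ i j l m, C4 i j l m ≤ ∑ i, ∑ j, ∑ l, ∑ m, C4 i j l m := fun i j l m =>
    (((Finset.single_le_sum (f := C4 i j l) (fun m _ => p4 i j l m) (Finset.mem_univ m)).trans
      (Finset.single_le_sum (f := fun l => ∑ m, C4 i j l m)
        (fun l _ => Finset.sum_nonneg fun m _ => p4 i j l m) (Finset.mem_univ l))).trans
      (Finset.single_le_sum (f := fun j => ∑ l, ∑ m, C4 i j l m)
        (fun j _ => Finset.sum_nonneg fun l _ => Finset.sum_nonneg fun m _ => p4 i j l m)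
        (Finset.mem_univ j))).trans
      (Finset.single_le_sum (f := fun i => ∑ j, ∑ l, ∑ m, C4 i j l m)
        (fun i _ => Finset.sum_nonneg fun j _ => Finset.sum_nonneg fun l _ =>
          Finset.sum_nonneg fun m _ => p4 i j l m) (Finset.mem_univ i))
  have t2 := mul_nonneg q2 hρ.le
  have t3 := mul_nonneg q3 (pow_pos hρ 2).le
  have t4 := mul_nonneg q4 (pow_pos hρ 3).le
  refine ⟨(∑ i, C1 i) + (∑ i, ∑ j, C2 i j) * ρ + (∑ i, ∑ j, ∑ l, C3 i j l) * ρ ^ 2 +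
    (∑ i, ∑ j, ∑ l, ∑ m, C4 i j l m) * ρ ^ 3, by positivity, hg, hc, ?_, ?_, ?_, ?_⟩
  · intro i y
    have := h1 i y
    have := r1 i
    linarith
  · intro i j y
    rw [le_div_iff₀ hρ]
    have a1 := mul_le_mul_of_nonneg_right ((h2 j i y).trans (r2 j i)) hρ.le
    linarith
  · intro i j l y
    rw [le_div_iff₀ (pow_pos hρ 2)]
    have a1 := mul_le_mul_of_nonneg_right ((h3 l j i y).trans (r3 l j i)) (pow_pos hρ 2).le
    linarith
  · intro i j l m y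
    rw [le_div_iff₀ (pow_pos hρ 3)]
    have a1 := mul_le_mul_of_nonneg_right ((h4 m l j i y).trans (r4 m l j i)) (pow_pos hρ 3).le
    linarith

/-- the pair term -/
noncomputable def dbsS {n : ℕ} (g : R3 → ℝ) (k l : Fin n) (x : Cf n) : ℝ :=
  Tq (x k - x l) (gv g (x k) - gv g (x l)) (gv g (x k) - gv g (x l)) -
    (∑ i, (gq g (x k) i - gq g (x l) i) * (x k i - x l i)) / nr (x k - x l) ^ 3

theorem dbs_gq (g : R3 → ℝ) (y : R3) (i : Fin 3) : gq g y i = poea g i y := by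
  unfold gq poea
  exact Finset.sum_congr rfl fun j _ => mul_comm _ _

/-- algebra: absolute bound -/
theorem dbs_alg {z0 z1 z2 d0 d1 d2 b0 b1 b2 R w A B : ℝ} (hR : 0 < R)
    (hw : 0 < w) (hwR : w ≤ 1 / R) (_hA : 0 ≤ A) (hB : 0 ≤ B)
    (h0 : |d0| ≤ A * R) (h1 : |d1| ≤ A * R) (h2 : |d2| ≤ A * R)
    (k0 : |b0| ≤ B * R) (k1 : |b1| ≤ B * R) (k2 : |b2| ≤ B * R)
    (a0 : |z0| ≤ R) (a1 : |z1| ≤ R) (a2 : |z2| ≤ R) :
    |-((d0 ^ 2 + d1 ^ 2 + d2 ^ 2) + (z0 * b0 + z1 * b1 + z2 * b2)) * w ^ 3 +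
      3 * (z0 * d0 + z1 * d1 + z2 * d2) ^ 2 * w ^ 5| ≤ (30 * A ^ 2 + 3 * B) * (1 / R) := by
  have hd : ∀ d : ℝ, |d| ≤ A * R → d ^ 2 ≤ A ^ 2 * R ^ 2 := by
    intro d h
    have := pow_le_pow_left₀ (abs_nonneg d) h 2
    rw [sq_abs] at this
    linarith [mul_pow A R 2]
  have hz : ∀ z b C : ℝ, |z| ≤ R → |b| ≤ C * R → |z * b| ≤ C * R ^ 2 := by
    intro z b C hz hb
    rw [abs_mul]
    calc |z| * |b| ≤ R * (C * R) := mul_le_mul hz hb (abs_nonneg _) hR.le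
      _ = C * R ^ 2 := by ring
  have e1 : |(d0 ^ 2 + d1 ^ 2 + d2 ^ 2) + (z0 * b0 + z1 * b1 + z2 * b2)| ≤
      (3 * A ^ 2 + 3 * B) * R ^ 2 := by
    have := hd d0 h0
    have := hd d1 h1
    have := hd d2 h2
    have u0 := abs_le.1 (hz z0 b0 B a0 k0)
    have u1 := abs_le.1 (hz z1 b1 B a1 k1)
    have u2 := abs_le.1 (hz z2 b2 B a2 k2)
    have := sq_nonneg d0
    have := sq_nonneg d1
    have := sq_nonneg d2
    have : 0 ≤ A ^ 2 * R ^ 2 := by positivity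
    rw [abs_le]
    constructor <;> linarith [u0.1, u0.2, u1.1, u1.2, u2.1, u2.2]
  have e2 : |z0 * d0 + z1 * d1 + z2 * d2| ≤ 3 * A * R ^ 2 := by
    have u0 := abs_le.1 (hz z0 d0 A a0 h0)
    have u1 := abs_le.1 (hz z1 d1 A a1 h1)
    have u2 := abs_le.1 (hz z2 d2 A a2 h2)
    rw [abs_le]
    constructor <;> linarith [u0.1, u0.2, u1.1, u1.2, u2.1, u2.2]
  have e3 : (z0 * d0 + z1 * d1 + z2 * d2) ^ 2 ≤ (3 * A * R ^ 2) ^ 2 := by
    have := pow_le_pow_left₀ (abs_nonneg _) e2 2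
    rwa [sq_abs] at this
  have w3 : w ^ 3 ≤ (1 / R) ^ 3 := pow_le_pow_left₀ hw.le hwR 3
  have w5 : w ^ 5 ≤ (1 / R) ^ 5 := pow_le_pow_left₀ hw.le hwR 5
  refine (abs_add_le _ _).trans ?_
  rw [abs_mul, abs_neg, abs_of_pos (pow_pos hw 3), abs_of_nonneg (by positivity :
    0 ≤ 3 * (z0 * d0 + z1 * d1 + z2 * d2) ^ 2 * w ^ 5)]
  calc |(d0 ^ 2 + d1 ^ 2 + d2 ^ 2) + (z0 * b0 + z1 * b1 + z2 * b2)| * w ^ 3 +
        3 * (z0 * d0 + z1 * d1 + z2 * d2) ^ 2 * w ^ 5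
      ≤ ((3 * A ^ 2 + 3 * B) * R ^ 2) * (1 / R) ^ 3 + (3 * (3 * A * R ^ 2) ^ 2) * (1 / R) ^ 5 := by
        refine add_le_add ?_ ?_
        · exact mul_le_mul e1 w3 (by positivity) (by positivity)
        · refine mul_le_mul ?_ w5 (by positivity) (by positivity)
          linarith
    _ = _ := by
        field_simp
        ring

theorem dbs_h {n : ℕ} {g : R3 → ℝ} {K r : ℝ} (hS : Scale g K r) (hK : 0 ≤ K) (hr : 0 < r)
    (k l : Fin n) {e : ℝ} (he : 0 < e) (x : Cf n) (hx : nr (x k - x l) ≠ 0) :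
    |poeD g (poeh g k l e) x| ≤
      (30 * (3 * (K / r)) ^ 2 + 3 * (18 * (K ^ 2 / r ^ 2))) * (1 / nr (x k - x l)) := by
  have hg := hS.sm
  rw [poeD_h hg k l he]
  have hpos : 0 < nr (x k - x l) := lt_of_le_of_ne (poe_nr_nonneg _) (Ne.symm hx)
  have hw : 0 < poew k l e x := inv_pos.2 (Real.sqrt_pos.2 (poeq_pos k l he x))
  have hw1 : poew k l e x ≤ 1 / nr (x k - x l) := by
    unfold poew
    rw [one_div (nr (x k - x l))]
    refine inv_anti₀ hpos ?_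
    refine Real.le_sqrt_of_sq_le ?_
    rw [poe_q_eq]
    have := sq_nonneg e
    linarith
  have hd : ∀ i : Fin 3, |pd i g (x k) - pd i g (x l)| ≤ 3 * (K / r) * nr (x k - x l) := by
    intro i
    exact poe_lip ((poe_pd_cd hg i).differentiable (by simp)) (by positivity)
      (fun j y => hS.d2 j i y) _ _
  have hb : ∀ i : Fin 3, |poea g i (x k) - poea g i (x l)| ≤
      18 * (K ^ 2 / r ^ 2) * nr (x k - x l) := by
    intro i
    have := poe_lip ((poea_cd hg i).differentiable (by simp)) (M := 6 * (K ^ 2 / r ^ 2))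
      (by positivity) (fun j y => poea_pd hS hr i j y) (x k) (x l)
    linarith
  have hz : ∀ i : Fin 3, |x k i - x l i| ≤ nr (x k - x l) := fun i =>
    poe_abs_le_nr (x k - x l) i
  exact dbs_alg hpos hw hw1 (by positivity) (by positivity) (hd 0) (hd 1) (hd 2)
    (hb 0) (hb 1) (hb 2) (hz 0) (hz 1) (hz 2)

theorem dbs_hl {n : ℕ} {g : R3 → ℝ} (hg : ContDiff ℝ (⊤ : ℕ∞) g)
    (k l : Fin n) (x : Cf n) (hx : nr (x k - x l) ≠ 0) :
    Tendsto (fun m : ℕ => poeD g (poeh g k l (1 / ((m : ℝ) + 1))) x) atTop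
      (𝓝 (dbsS g k l x)) := by
  have hpos : 0 < nr (x k - x l) := lt_of_le_of_ne (poe_nr_nonneg _) (Ne.symm hx)
  have h3 : Tendsto (fun m : ℕ => poew k l (1 / ((m : ℝ) + 1)) x) atTop
      (𝓝 (nr (x k - x l))⁻¹) := by
    unfold poew
    refine Tendsto.inv₀ ?_ hx
    have h1 : Tendsto (fun m : ℕ => nr (x k - x l) ^ 2 + (1 / ((m : ℝ) + 1)) ^ 2) atTop
        (𝓝 (nr (x k - x l) ^ 2 + 0 ^ 2)) :=
      tendsto_const_nhds.add (tendsto_one_div_add_atTop_nhds_zero_nat.pow 2)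
    have h2 := h1.sqrt
    rw [show nr (x k - x l) ^ 2 + (0 : ℝ) ^ 2 = nr (x k - x l) ^ 2 by ring,
      Real.sqrt_sq hpos.le] at h2
    refine h2.congr fun m => ?_
    rw [poe_q_eq]
  have h4 := ((h3.pow 3).const_mul (-(((pd 0 g (x k) - pd 0 g (x l)) ^ 2 +
        (pd 1 g (x k) - pd 1 g (x l)) ^ 2 + (pd 2 g (x k) - pd 2 g (x l)) ^ 2) +
        ((x k 0 - x l 0) * (poea g 0 (x k) - poea g 0 (x l)) +
        (x k 1 - x l 1) * (poea g 1 (x k) - poea g 1 (x l)) +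
        (x k 2 - x l 2) * (poea g 2 (x k) - poea g 2 (x l)))))).add
    ((h3.pow 5).const_mul (3 * ((x k 0 - x l 0) * (pd 0 g (x k) - pd 0 g (x l)) +
        (x k 1 - x l 1) * (pd 1 g (x k) - pd 1 g (x l)) +
        (x k 2 - x l 2) * (pd 2 g (x k) - pd 2 g (x l))) ^ 2))
  have h5 : -(((pd 0 g (x k) - pd 0 g (x l)) ^ 2 +
        (pd 1 g (x k) - pd 1 g (x l)) ^ 2 + (pd 2 g (x k) - pd 2 g (x l)) ^ 2) +
        ((x k 0 - x l 0) * (poea g 0 (x k) - poea g 0 (x l)) +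
        (x k 1 - x l 1) * (poea g 1 (x k) - poea g 1 (x l)) +
        (x k 2 - x l 2) * (poea g 2 (x k) - poea g 2 (x l)))) * (nr (x k - x l))⁻¹ ^ 3 +
      3 * ((x k 0 - x l 0) * (pd 0 g (x k) - pd 0 g (x l)) +
        (x k 1 - x l 1) * (pd 1 g (x k) - pd 1 g (x l)) +
        (x k 2 - x l 2) * (pd 2 g (x k) - pd 2 g (x l))) ^ 2 * (nr (x k - x l))⁻¹ ^ 5 =
      dbsS g k l x := by
    unfold dbsS Tq
    simp only [dbs_gq, gv, Pi.sub_apply, Fin.sum_univ_three]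
    simp only [inv_pow, div_eq_mul_inv]
    ring
  rw [h5] at h4
  refine h4.congr fun m => ?_
  have he : (0 : ℝ) < 1 / ((m : ℝ) + 1) := by positivity
  rw [poeD_h hg k l he]

theorem dbs_Sb {n : ℕ} {g : R3 → ℝ} {K r : ℝ} (hS : Scale g K r) (hK : 0 ≤ K) (hr : 0 < r)
    (k l : Fin n) (x : Cf n) (hx : nr (x k - x l) ≠ 0) :
    |dbsS g k l x| ≤
      (30 * (3 * (K / r)) ^ 2 + 3 * (18 * (K ^ 2 / r ^ 2))) * (1 / nr (x k - x l)) :=
  le_of_tendsto' (dbs_hl hS.sm k l x hx).abs fun m => dbs_h hS hK hr k l (by positivity) x hx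

theorem dbs_Sm {n : ℕ} {g : R3 → ℝ} (hg : ContDiff ℝ (⊤ : ℕ∞) g) {k l : Fin n} (hkl : k ≠ l) :
    AEStronglyMeasurable (dbsS g k l) volume := by
  refine aestronglyMeasurable_of_tendsto_ae (u := atTop)
    (f := fun m : ℕ => poeD g (poeh g k l (1 / ((m : ℝ) + 1)))) (fun m => ?_) ?_
  · exact (poe_Dc hg (poeh_cd hg k l (by positivity))).aestronglyMeasurable
  · filter_upwards [poe_null hkl] with x hx
    exact dbs_hl hg k l x hx

theorem dbs_pint {n M : ℕ} (hI : ST_INTM) (X : Fin M → R3) (Z : Fin M → ℝ) {g : R3 → ℝ}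
    {K r : ℝ} (hS : Scale g K r) (hK : 0 ≤ K) (hr : 0 < r)
    {k l : Fin n} (hkl : k < l) {v : Cf n → ℝ} (hv : ContDiff ℝ (⊤ : ℕ∞) v)
    (hvc : HasCompactSupport v) : Integrable (fun x => dbsS g k l x * v x ^ 2) := by
  have c3 : Continuous (fun x => v x * v x) := hv.continuous.mul hv.continuous
  have J := poe_pi hkl c3 (hI n M X Z v v hv hvc hv hvc).2.1
  refine (J.const_mul (30 * (3 * (K / r)) ^ 2 + 3 * (18 * (K ^ 2 / r ^ 2)))).mono' ?_ ?_
  · exact (dbs_Sm hS.sm hkl.ne).mul (hv.continuous.pow 2).aestronglyMeasurable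
  · filter_upwards [poe_null hkl.ne] with x hx
    rw [Real.norm_eq_abs, abs_mul, abs_of_nonneg (sq_nonneg (v x))]
    refine (mul_le_mul_of_nonneg_right (dbs_Sb hS hK hr k l x hx) (sq_nonneg (v x))).trans
      (le_of_eq ?_)
    ring

theorem dbs_pair {n M : ℕ} (hPAN : ST_PAN) (hSTB : ST_STB) (hI : ST_INTM) (X : Fin M → R3)
    (Z : Fin M → ℝ) {g : R3 → ℝ} {K r : ℝ} (hS : Scale g K r) (hK : 0 ≤ K) (hr : 0 < r)
    {k l : Fin n} (hkl : k < l) {v : Cf n → ℝ} (hv : ContDiff ℝ (⊤ : ℕ∞) v)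
    (hvc : HasCompactSupport v) :
    (∫ x, 1 / nr (x k - x l) * (Pg g v x * Pg g v x)) +
      (∫ x, 1 / nr (x k - x l) * (Pg g (Pg g v) x * v x)) =
      1 / 2 * ∫ x, dbsS g k l x * v x ^ 2 := by
  have hg := hS.sm
  obtain ⟨hp, hpc⟩ := poe_sm hSTB hg hv hvc
  obtain ⟨hpp, hppc⟩ := poe_sm hSTB hg hp hpc
  have c1 : Continuous (fun x => Pg g v x * Pg g v x) := hp.continuous.mul hp.continuous
  have c2 : Continuous (fun x => Pg g (Pg g v) x * v x) := hpp.continuous.mul hv.continuous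
  have c3 : Continuous (fun x => v x * v x) := hv.continuous.mul hv.continuous
  have J1 := poe_pi hkl c1 (hI n M X Z _ _ hp hpc hp hpc).2.1
  have J2 := poe_pi hkl c2 (hI n M X Z _ _ hpp hppc hv hvc).2.1
  have J3 := poe_pi hkl c3 (hI n M X Z v v hv hvc hv hvc).2.1
  have t1 := poe_lim hkl.ne c1 J1
  have t2 := poe_lim hkl.ne c2 J2
  have t3 : Tendsto (fun m : ℕ => ∫ x, poeD g (poeh g k l (1 / ((m : ℝ) + 1))) x * v x ^ 2)
      atTop (𝓝 (∫ x, dbsS g k l x * v x ^ 2)) := by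
    refine tendsto_integral_of_dominated_convergence
      (fun x => (30 * (3 * (K / r)) ^ 2 + 3 * (18 * (K ^ 2 / r ^ 2))) *
        (1 / nr (x k - x l) * (v x * v x))) (fun m => ?_)
      (J3.const_mul _) (fun m => ?_) ?_
    · exact ((poe_Dc hg (poeh_cd hg k l (by positivity))).mul
        (hv.continuous.pow 2)).aestronglyMeasurable
    · filter_upwards [poe_null hkl.ne] with x hx
      rw [Real.norm_eq_abs, abs_mul, abs_of_nonneg (sq_nonneg (v x))]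
      refine (mul_le_mul_of_nonneg_right (dbs_h hS hK hr k l (by positivity) x hx)
        (sq_nonneg (v x))).trans (le_of_eq ?_)
      ring
    · filter_upwards [poe_null hkl.ne] with x hx
      exact (dbs_hl hg k l x hx).mul tendsto_const_nhds
  have key : ∀ m : ℕ, (∫ x, poew k l (1 / ((m : ℝ) + 1)) x * (Pg g v x * Pg g v x)) +
      (∫ x, poew k l (1 / ((m : ℝ) + 1)) x * (Pg g (Pg g v) x * v x)) =
      1 / 2 * ∫ x, poeD g (poeh g k l (1 / ((m : ℝ) + 1))) x * v x ^ 2 := by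
    intro m
    have he : (0 : ℝ) < 1 / ((m : ℝ) + 1) := by positivity
    generalize 1 / ((m : ℝ) + 1) = e at he
    have hWc : ContDiff ℝ (⊤ : ℕ∞) (poew k l e) := poew_cd k l he
    have hhc : ContDiff ℝ (⊤ : ℕ∞) (poeh g k l e) := poeh_cd hg k l he
    have j1 := poe_id1 hPAN hg hv hvc hp hpc rfl hWc hhc (fun x => poeD_w k l he x)
    have j2 := poe_id2 hPAN hg hv hvc hp rfl hhc
    simp only [← pow_two]
    rw [j1]
    simp only [pow_two] at j2 ⊢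
    linarith
  have t4 := (t3.const_mul (1 / 2)).congr fun m => (key m).symm
  exact tendsto_nhds_unique (t1.add t2) t4

/-- the nucleus term -/
noncomputable def dbsN (g : R3 → ℝ) (a y : R3) : ℝ :=
  Tq (y - a) (gv g y) (gv g y) - (∑ i, gq g y i * (y i - a i)) / nr (y - a) ^ 3

theorem dbs_nf {g : R3 → ℝ} (hg : ContDiff ℝ (⊤ : ℕ∞) g) (a : R3) {s : ℝ} (hs : 0 < s) (y : R3) :
    pin_D g (pin_D g (pinM_U a s)) y =
      pin_A s (pin_q s (y - a)) * (2 * (∑ i, gq g y i * (y i - a i)) +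
        2 * ∑ i, gv g y i * gv g y i) +
      pin_B s (pin_q s (y - a)) * (4 * (∑ i, gv g y i * (y i - a i)) ^ 2) := by
  have hg' : ContDiff ℝ (⊤ : ℕ∞) (fun z => g (z + a)) := hg.comp (contDiff_id.add contDiff_const)
  rw [pinM_DD, pin_DD hg' (pin_smU hs)]
  simp only [pinM_pdt, sub_add_cancel, pin_pddU hs]
  simp only [pin_pdU hs, gq, gv, Pi.sub_apply, Fin.sum_univ_three]
  simp
  ring

theorem dbs_nl {g : R3 → ℝ} (hg : ContDiff ℝ (⊤ : ℕ∞) g) (a : R3) {y : R3} (hy : y - a ≠ 0) :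
    Tendsto (fun j : ℕ => pin_D g (pin_D g (pinM_U a (1 / ((j : ℝ) + 1)))) y) atTop
      (𝓝 (dbsN g a y)) := by
  have ha := pin_nrpos hy
  have h1 : Tendsto (fun m : ℕ => nr (y - a) ^ 2 + (1 / ((m : ℝ) + 1)) ^ 2) atTop
      (𝓝 (nr (y - a) ^ 2 + 0 ^ 2)) :=
    tendsto_const_nhds.add (tendsto_one_div_add_atTop_nhds_zero_nat.pow 2)
  have h2 := h1.sqrt
  rw [show nr (y - a) ^ 2 + (0 : ℝ) ^ 2 = nr (y - a) ^ 2 by ring, Real.sqrt_sq ha.le] at h2
  have h3 : Tendsto (fun m : ℕ => pin_f (pin_q (1 / ((m : ℝ) + 1)) (y - a))) atTop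
      (𝓝 (nr (y - a))⁻¹) := by
    refine (h2.inv₀ ha.ne').congr fun m => ?_
    unfold pin_f
    rw [pin_qn]
  have h4 : Tendsto (fun m : ℕ => pin_A (1 / ((m : ℝ) + 1))
      (pin_q (1 / ((m : ℝ) + 1)) (y - a))) atTop
      (𝓝 (-(1 / 2) * (nr (y - a))⁻¹ ^ 3 - 3 / 4 * 0 ^ 2 * (nr (y - a))⁻¹ ^ 5)) := by
    unfold pin_A
    exact ((h3.pow 3).const_mul _).sub
      (((tendsto_one_div_add_atTop_nhds_zero_nat.pow 2).const_mul (3 / 4)).mul (h3.pow 5))
  have h4' : Tendsto (fun m : ℕ => pin_B (1 / ((m : ℝ) + 1))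
      (pin_q (1 / ((m : ℝ) + 1)) (y - a))) atTop
      (𝓝 (3 / 4 * (nr (y - a))⁻¹ ^ 5 + 15 / 8 * 0 ^ 2 * (nr (y - a))⁻¹ ^ 7)) := by
    unfold pin_B
    exact ((h3.pow 5).const_mul _).add
      (((tendsto_one_div_add_atTop_nhds_zero_nat.pow 2).const_mul (15 / 8)).mul (h3.pow 7))
  have h5 := (h4.mul_const (2 * (∑ i, gq g y i * (y i - a i)) +
        2 * ∑ i, gv g y i * gv g y i)).add
    (h4'.mul_const (4 * (∑ i, gv g y i * (y i - a i)) ^ 2))
  have h6 : (-(1 / 2) * (nr (y - a))⁻¹ ^ 3 - 3 / 4 * 0 ^ 2 * (nr (y - a))⁻¹ ^ 5) *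
        (2 * (∑ i, gq g y i * (y i - a i)) + 2 * ∑ i, gv g y i * gv g y i) +
      (3 / 4 * (nr (y - a))⁻¹ ^ 5 + 15 / 8 * 0 ^ 2 * (nr (y - a))⁻¹ ^ 7) *
        (4 * (∑ i, gv g y i * (y i - a i)) ^ 2) = dbsN g a y := by
    unfold dbsN Tq
    simp only [inv_pow, div_eq_mul_inv, Pi.sub_apply]
    ring
  rw [h6] at h5
  refine h5.congr fun m => ?_
  rw [dbs_nf hg a (by positivity)]

theorem dbs_nb {g : R3 → ℝ} {K ρ : ℝ} (hS : Scale g K ρ) (hρ : 0 < ρ) (a : R3)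
    (h0 : ∀ y, nr (y - a) < ρ → ∀ i, pd i g y = 0) {s : ℝ} (hs : 0 < s) (y : R3) :
    |pin_D g (pin_D g (pinM_U a s)) y| ≤ 140 * K ^ 2 / ρ ^ 2 * (1 / nr (y - a)) := by
  by_cases hy : nr (y - a) < ρ
  · have e : pin_D g (pin_D g (pinM_U a s)) y = 0 := by
      rw [dbs_nf hS.sm a hs y]
      simp [gq, gv, h0 y hy]
    rw [e, abs_zero]
    have := poe_nr_nonneg (y - a)
    positivity
  · exact pinM_out a hs hρ hS y (not_lt.1 hy)

theorem dbs_sl {n : ℕ} {g : R3 → ℝ} (hg : ContDiff ℝ (⊤ : ℕ∞) g) (a : R3) :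
    ∀ᵐ x : Cf n, Tendsto (fun j : ℕ =>
      pin_S (pin_D g (pin_D g (pinM_U a (1 / ((j : ℝ) + 1))))) x) atTop
      (𝓝 (∑ k, dbsN g a (x k))) := by
  filter_upwards [pinM_ae n a] with x hx
  unfold pin_S
  exact tendsto_finsetSum _ fun k _ => dbs_nl hg a (hx k)

theorem dbs_sb {n : ℕ} {g : R3 → ℝ} {K ρ : ℝ} (hS : Scale g K ρ) (hρ : 0 < ρ) (a : R3)
    (h0 : ∀ y, nr (y - a) < ρ → ∀ i, pd i g y = 0) {s : ℝ} (hs : 0 < s) (x : Cf n) :
    |pin_S (pin_D g (pin_D g (pinM_U a s))) x| ≤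
      140 * K ^ 2 / ρ ^ 2 * ∑ k, 1 / nr (x k - a) := by
  unfold pin_S
  rw [Finset.mul_sum]
  exact (Finset.abs_sum_le_sum_abs _ _).trans
    (Finset.sum_le_sum fun k _ => dbs_nb hS hρ a h0 hs (x k))

theorem dbs_nint {n : ℕ} (hI : ST_INTM) {g : R3 → ℝ} {K ρ : ℝ} (hS : Scale g K ρ)
    (hρ : 0 < ρ) (a : R3) (h0 : ∀ y, nr (y - a) < ρ → ∀ i, pd i g y = 0) {v : Cf n → ℝ}
    (hv : ContDiff ℝ (⊤ : ℕ∞) v) (hvc : HasCompactSupport v) :
    Integrable (fun x : Cf n => (∑ k, dbsN g a (x k)) * v x ^ 2) := by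
  refine ((pinM_int hI a hv hvc hv hvc).const_mul (140 * K ^ 2 / ρ ^ 2)).mono' ?_ ?_
  · refine AEStronglyMeasurable.mul ?_ (hv.continuous.pow 2).aestronglyMeasurable
    refine aestronglyMeasurable_of_tendsto_ae (u := atTop)
      (f := fun j : ℕ => pin_S (pin_D g (pin_D g (pinM_U a (1 / ((j : ℝ) + 1))))))
      (fun j => ?_) (dbs_sl hS.sm a)
    exact (pin_smS (n := n) (pin_smD hS.sm (pin_smD hS.sm
      (pinM_smU a (by positivity))))).continuous.aestronglyMeasurable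
  · filter_upwards [dbs_sl hS.sm a] with x hx
    have hb : |∑ k, dbsN g a (x k)| ≤ 140 * K ^ 2 / ρ ^ 2 * ∑ k, 1 / nr (x k - a) :=
      le_of_tendsto' hx.abs fun j => dbs_sb hS hρ a h0 (by positivity) x
    rw [Real.norm_eq_abs, abs_mul, abs_of_nonneg (sq_nonneg (v x))]
    refine (mul_le_mul_of_nonneg_right hb (sq_nonneg (v x))).trans (le_of_eq ?_)
    ring

theorem dbs_nuc {n : ℕ} (hPAN : ST_PAN) (hSTB : ST_STB) (hI : ST_INTM) {g : R3 → ℝ}
    {K ρ : ℝ} (hS : Scale g K ρ) (hρ : 0 < ρ) (a : R3)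
    (h0 : ∀ y, nr (y - a) < ρ → ∀ i, pd i g y = 0) {v : Cf n → ℝ}
    (hv : ContDiff ℝ (⊤ : ℕ∞) v) (hvc : HasCompactSupport v) :
    (∫ x, (∑ k, 1 / nr (x k - a)) * (Pg g v x * Pg g v x)) +
      (∫ x, (∑ k, 1 / nr (x k - a)) * (Pg g (Pg g v) x * v x)) =
      1 / 2 * ∫ x : Cf n, (∑ k, dbsN g a (x k)) * v x ^ 2 := by
  have hg := hS.sm
  obtain ⟨hp, hpc⟩ := poe_sm hSTB hg hv hvc
  obtain ⟨hpp, hppc⟩ := poe_sm hSTB hg hp hpc
  have t1 := pinM_lim hI a hp hpc hp hpc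
  have t2 := pinM_lim hI a hpp hppc hv hvc
  have t3 : Tendsto (fun j : ℕ => ∫ x,
      pin_S (pin_D g (pin_D g (pinM_U a (1 / ((j : ℝ) + 1))))) x * v x ^ 2) atTop
      (𝓝 (∫ x : Cf n, (∑ k, dbsN g a (x k)) * v x ^ 2)) := by
    refine tendsto_integral_of_dominated_convergence
      (fun x : Cf n => 140 * K ^ 2 / ρ ^ 2 * ((∑ k, 1 / nr (x k - a)) * (v x * v x)))
      (fun j => ?_) ((pinM_int hI a hv hvc hv hvc).const_mul _) (fun j => ?_) ?_
    · exact (((pin_smS (n := n) (pin_smD hg (pin_smD hg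
        (pinM_smU a (by positivity))))).continuous).mul
        (hv.continuous.pow 2)).aestronglyMeasurable
    · refine Filter.Eventually.of_forall fun x => ?_
      rw [Real.norm_eq_abs, abs_mul, abs_of_nonneg (sq_nonneg (v x))]
      refine (mul_le_mul_of_nonneg_right (dbs_sb hS hρ a h0 (by positivity) x)
        (sq_nonneg (v x))).trans (le_of_eq ?_)
      ring
    · filter_upwards [dbs_sl hg a] with x hx
      exact hx.mul_const _
  have key : ∀ j : ℕ, (∫ x, pin_S (pinM_U a (1 / ((j : ℝ) + 1))) x * (Pg g v x * Pg g v x)) +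
      (∫ x, pin_S (pinM_U a (1 / ((j : ℝ) + 1))) x * (Pg g (Pg g v) x * v x)) =
      1 / 2 * ∫ x, pin_S (pin_D g (pin_D g (pinM_U a (1 / ((j : ℝ) + 1))))) x * v x ^ 2 := by
    intro j
    have := pin_id hPAN hSTB hg (pinM_smU a (show (0 : ℝ) < 1 / ((j : ℝ) + 1) by positivity))
      hv hvc
    simp only [pow_two] at this ⊢
    exact this
  have t4 := (t3.const_mul (1 / 2)).congr fun j => (key j).symm
  exact tendsto_nhds_unique (t1.add t2) t4

theorem dbs_pot {n M : ℕ} (hI : ST_INTM) (X : Fin M → R3) (Z : Fin M → ℝ) {v w : Cf n → ℝ}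
    (hv : ContDiff ℝ (⊤ : ℕ∞) v) (hvc : HasCompactSupport v) (hw : ContDiff ℝ (⊤ : ℕ∞) w)
    (hwc : HasCompactSupport w) :
    ∫ x, (∑ k, pot X Z (x k)) * (v x * w x) =
      ∑ j, Z j * ∫ x, (∑ k, 1 / nr (x k - X j)) * (v x * w x) := by
  have a1 : ∀ x : Cf n, (∑ k, pot X Z (x k)) * (v x * w x) =
      ∑ j, Z j * ((∑ k, 1 / nr (x k - X j)) * (v x * w x)) := by
    intro x
    unfold pot
    rw [Finset.sum_comm, Finset.sum_mul]
    refine Finset.sum_congr rfl fun j _ => ?_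
    have a2 : ∑ k, Z j / nr (x k - X j) = Z j * ∑ k, 1 / nr (x k - X j) := by
      rw [Finset.mul_sum]
      refine Finset.sum_congr rfl fun k _ => ?_
      ring
    rw [a2]
    ring
  simp only [a1]
  rw [integral_finsetSum _ fun j _ => (pinM_int hI (X j) hv hvc hw hwc).const_mul (Z j)]
  refine Finset.sum_congr rfl fun j _ => ?_
  rw [integral_const_mul]

theorem dbs_one {n M : ℕ} (hPAN : ST_PAN) (hSTB : ST_STB) (hI : ST_INTM)
    (X : Fin M → R3) (Z : Fin M → ℝ) {g : R3 → ℝ} {K ρ : ℝ} (hS : Scale g K ρ) (hK : 0 ≤ K)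
    (hρ : 0 < ρ) (h0 : ∀ j y, nr (y - X j) < ρ → ∀ i, pd i g y = 0) {v : Cf n → ℝ}
    (hv : ContDiff ℝ (⊤ : ℕ∞) v) (hvc : HasCompactSupport v) :
    Integrable (fun x : Cf n => D2 X Z g x * v x ^ 2) ∧
    ∫ x, (rep x - ∑ k, pot X Z (x k)) * (Pg g v x ^ 2 + Pg g (Pg g v) x * v x) =
      1 / 2 * ∫ x, D2 X Z g x * v x ^ 2 := by
  have hg := hS.sm
  obtain ⟨hp, hpc⟩ := poe_sm hSTB hg hv hvc
  obtain ⟨hpp, hppc⟩ := poe_sm hSTB hg hp hpc
  have eV : ∀ x : Cf n, D2 X Z g x * v x ^ 2 =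
      (∑ k, ∑ l, if k < l then dbsS g k l x * v x ^ 2 else 0) -
      ∑ j, Z j * ((∑ k, dbsN g (X j) (x k)) * v x ^ 2) := by
    intro x
    have e1 : D2 X Z g x = (∑ k, ∑ l, if k < l then dbsS g k l x else 0) -
        ∑ k, ∑ j, Z j * dbsN g (X j) (x k) := by
      have e2 : D2 X Z g x = (∑ k, ∑ l, if k < l then dbsS g k l x else 0) +
        ∑ k, ∑ j, Z j * ((∑ i, gq g (x k) i * (x k i - X j i)) / nr (x k - X j) ^ 3 -
          Tq (x k - X j) (gv g (x k)) (gv g (x k))) := rfl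
      rw [e2, sub_eq_add_neg, ← Finset.sum_neg_distrib]
      congr 1
      refine Finset.sum_congr rfl fun k _ => ?_
      rw [← Finset.sum_neg_distrib]
      refine Finset.sum_congr rfl fun j _ => ?_
      unfold dbsN
      ring
    rw [e1, sub_mul]
    congr 1
    · rw [Finset.sum_mul]
      refine Finset.sum_congr rfl fun k _ => ?_
      rw [Finset.sum_mul]
      refine Finset.sum_congr rfl fun l _ => ?_
      split_ifs
      · rfl
      · exact zero_mul _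
    · rw [Finset.sum_comm, Finset.sum_mul]
      refine Finset.sum_congr rfl fun j _ => ?_
      rw [← Finset.mul_sum]
      ring
  have IS : ∀ k l : Fin n, Integrable (fun x : Cf n =>
      if k < l then dbsS g k l x * v x ^ 2 else 0) := by
    intro k l
    split_ifs with hkl
    · exact dbs_pint hI X Z hS hK hρ hkl hv hvc
    · exact integrable_zero _ _ _
  have IN : ∀ j : Fin M, Integrable (fun x : Cf n =>
      Z j * ((∑ k, dbsN g (X j) (x k)) * v x ^ 2)) := fun j =>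
    (dbs_nint hI hS hρ (X j) (h0 j) hv hvc).const_mul _
  have I1 : Integrable (fun x : Cf n =>
      (∑ k, ∑ l, if k < l then dbsS g k l x * v x ^ 2 else 0)) :=
    integrable_finsetSum _ fun k _ => integrable_finsetSum _ fun l _ => IS k l
  have I2 : Integrable (fun x : Cf n =>
      ∑ j, Z j * ((∑ k, dbsN g (X j) (x k)) * v x ^ 2)) :=
    integrable_finsetSum _ fun j _ => IN j
  have eV' : (fun x : Cf n => D2 X Z g x * v x ^ 2) = fun x =>
      (∑ k, ∑ l, if k < l then dbsS g k l x * v x ^ 2 else 0) -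
      ∑ j, Z j * ((∑ k, dbsN g (X j) (x k)) * v x ^ 2) := funext eV
  rw [eV']
  refine ⟨I1.sub I2, ?_⟩
  rw [integral_sub I1 I2,
    integral_finsetSum _ fun k _ => integrable_finsetSum _ fun l _ => IS k l,
    integral_finsetSum _ fun j _ => IN j]
  obtain ⟨K1, K2, -, -⟩ := hI n M X Z _ _ hp hpc hp hpc
  obtain ⟨L1, L2, -, -⟩ := hI n M X Z _ _ hpp hppc hv hvc
  have c1 : Continuous (fun x => Pg g v x * Pg g v x) := hp.continuous.mul hp.continuous
  have c2 : Continuous (fun x => Pg g (Pg g v) x * v x) := hpp.continuous.mul hv.continuous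
  have eL : ∫ x, (rep x - ∑ k, pot X Z (x k)) * (Pg g v x ^ 2 + Pg g (Pg g v) x * v x) =
      ((∫ x, rep x * (Pg g v x * Pg g v x)) + ∫ x, rep x * (Pg g (Pg g v) x * v x)) -
      ((∫ x, (∑ k, pot X Z (x k)) * (Pg g v x * Pg g v x)) +
        ∫ x, (∑ k, pot X Z (x k)) * (Pg g (Pg g v) x * v x)) := by
    have e := integral_sub (K2.add L2) (K1.add L1)
    simp only [Pi.add_apply] at e
    rw [← integral_add K2 L2, ← integral_add K1 L1, ← e]
    congr 1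
    funext x
    ring
  rw [eL, dbs_pot hI X Z hp hpc hp hpc, dbs_pot hI X Z hpp hppc hv hvc, poe_sum c1 K2,
    poe_sum c2 L2, mul_sub]
  congr 1
  · rw [← Finset.sum_add_distrib, Finset.mul_sum]
    refine Finset.sum_congr rfl fun k _ => ?_
    rw [integral_finsetSum _ fun l _ => IS k l, ← Finset.sum_add_distrib, Finset.mul_sum]
    refine Finset.sum_congr rfl fun l _ => ?_
    split_ifs with hkl
    · exact dbs_pair hPAN hSTB hI X Z hS hK hρ hkl hv hvc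
    · simp
  · rw [← Finset.sum_add_distrib, Finset.mul_sum]
    refine Finset.sum_congr rfl fun j _ => ?_
    rw [integral_const_mul, ← mul_add, dbs_nuc hPAN hSTB hI hS hρ (X j) (h0 j) hv hvc]
    ring

theorem DBS (_h1 : ST_VID) (_h2 : ST_IBP) (h3 : ST_PAN) (h4 : ST_STB) (h5 : ST_INTM)
    (_h6 : ST_HA2) (_h7 : ST_HA3) : ST_DBS := by
  intro n M X Z g ρ u hg hc hρ h0 hu
  obtain ⟨K, hK, hS⟩ := dbs_sc hg hc hρ
  have h := fun s => dbs_one h3 h4 h5 X Z hS hK hρ h0 (hu s).1 (hu s).2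
  refine ⟨fun s => (h s).1, ?_⟩
  rw [Finset.mul_sum]
  exact Finset.sum_congr rfl fun s _ => (h s).2

end Pool.Agent.Helper67.HV
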